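import Pool.Agent.Run7.h601.ZN.Stm

/-!
# Pieces PER and ORG of project ZN (helper601)

By helper610.
-/

set_option autoImplicit false

namespace Pool.Agent.Run7.h610.ZN

open Finset Pool.Agent.Run7.h601.ZN

/-- A sum over a block of intervals. -/
theorem sum_blocks {R : Type*} [AddCommMonoid R] (f : ℕ → R) (M Q : ℕ) :
    ∑ x ∈ range (Q * M), f x = ∑ q ∈ range Q, ∑ r ∈ range M, f (q * M + r) := by
  induction Q with
  | zero => simp
  | succ Q ih => rw [Nat.succ_mul, sum_range_add, ih, sum_range_succ]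

/-- The telescoping inequality. -/
theorem tel (A M : ℤ) (hA : 0 ≤ A) (hM : 0 < M) (U : ℕ) :
    4 * M * ∑ v ∈ range (U + 1), max (A - 2 * M * v) 0 + (max (A - 2 * M * U) 0) ^ 2 ≤
      4 * M * A + A ^ 2 := by
  induction U with
  | zero =>
    simp [max_eq_left hA]
  | succ U ih =>
    rw [sum_range_succ, mul_add]
    have key : 4 * M * max (A - 2 * M * ((U + 1 : ℕ) : ℤ)) 0 +
        (max (A - 2 * M * ((U + 1 : ℕ) : ℤ)) 0) ^ 2 ≤ (max (A - 2 * M * U) 0) ^ 2 := by
      rcases le_or_gt (A - 2 * M * ((U + 1 : ℕ) : ℤ)) 0 with h | h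
      · rw [max_eq_right h]
        have := sq_nonneg (max (A - 2 * M * (U : ℤ)) 0)
        linarith
      · rw [max_eq_left h.le]
        push_cast at h ⊢
        rw [max_eq_left (by nlinarith)]
        nlinarith
    linarith

theorem tel' (A M : ℤ) (hA : 0 ≤ A) (hM : 0 < M) (U : ℕ) :
    4 * M * ∑ v ∈ range U, max (A - 2 * M * v) 0 ≤ 4 * M * A + A ^ 2 := by
  rcases U with _ | U
  · simp only [range_zero, sum_empty, mul_zero]
    positivity
  · have := tel A M hA hM U
    have h2 := sq_nonneg (max (A - 2 * M * (U : ℤ)) 0)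
    linarith

/-- **PER.** -/
theorem t_PER : S_PER := by
  intro F M k Q hM hk hF
  obtain ⟨K, rfl⟩ := hk
  have hMz : (0 : ℤ) < M := by exact_mod_cast hM
  have hper : ∀ q r : ℕ, F (q * M + r) = F r := by
    intro q
    induction q with
    | zero => intro r; simp
    | succ q ih =>
      intro r
      rw [show (q + 1) * M + r = (q * M + r) + M by ring, hF, ih]
  rw [sum_blocks, sum_comm, mul_sum]
  apply sum_le_sum
  intro r hr
  rw [mem_range] at hr
  have hrz : (r : ℤ) < M := by exact_mod_cast hr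
  have hr0 : (0 : ℤ) ≤ r := Int.natCast_nonneg r
  set A : ℤ := |F r| with hA
  have hA0 : 0 ≤ A := abs_nonneg _
  have hA2 : F r ^ 2 = A ^ 2 := by rw [hA, sq_abs]
  rw [hA2]
  set f : ℕ → ℤ := fun q => max (|F (q * M + r)| - |2 * (((q * M + r : ℕ) : ℕ) : ℤ) + 1 -
    2 * ((M * K : ℕ) : ℤ)|) 0 with hf
  have hf0 : ∀ q, 0 ≤ f q := fun q => le_max_right _ _
  have h1 : ∑ q ∈ range Q, f q ≤ ∑ q ∈ range (K + Q), f q :=
    sum_le_sum_of_subset_of_nonneg (range_mono (Nat.le_add_left Q K)) fun i _ _ => hf0 i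
  have h2 : ∑ q ∈ range (K + Q), f q = ∑ q ∈ range K, f q + ∑ v ∈ range Q, f (K + v) :=
    sum_range_add f K Q
  have h3 : ∑ q ∈ range K, f q ≤ ∑ v ∈ range K, max (A - 2 * (M : ℤ) * v) 0 := by
    rw [← sum_range_reflect (fun v : ℕ => max (A - 2 * (M : ℤ) * v) 0) K]
    apply sum_le_sum
    intro q hq
    rw [mem_range] at hq
    simp only [hf]
    rw [hper]
    apply max_le_max_right
    apply sub_le_sub_left
    have hv : ((K - 1 - q : ℕ) : ℤ) = (K : ℤ) - 1 - q := by omega
    rw [hv]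
    push_cast
    rw [le_abs]
    right
    nlinarith
  have h4 : ∑ v ∈ range Q, f (K + v) ≤ ∑ v ∈ range Q, max (A - 2 * (M : ℤ) * v) 0 := by
    apply sum_le_sum
    intro q hq
    simp only [hf]
    rw [hper]
    apply max_le_max_right
    apply sub_le_sub_left
    push_cast
    rw [le_abs]
    left
    nlinarith
  have h5 := tel' A M hA0 hMz K
  have h6 := tel' A M hA0 hMz Q
  have h7 : ∑ q ∈ range Q, f q ≤ ∑ v ∈ range K, max (A - 2 * (M : ℤ) * v) 0 +
      ∑ v ∈ range Q, max (A - 2 * (M : ℤ) * v) 0 := by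
    linarith
  have h8 := mul_le_mul_of_nonneg_left h7 (by positivity : (0 : ℤ) ≤ 2 * M)
  calc 2 * (M : ℤ) * ∑ q ∈ range Q, f q ≤ _ := h8
    _ ≤ 4 * M * A + A ^ 2 := by
        rw [mul_add]
        linarith

/-- The sum of a function of the residue. -/
theorem sum_mod (g : ℕ → ℤ) (p m : ℕ) :
    ∑ x ∈ range (m * p), g (x % p) = m * ∑ j ∈ range p, g j := by
  rw [sum_blocks]
  have h : ∀ q ∈ range m, ∑ r ∈ range p, g ((q * p + r) % p) = ∑ j ∈ range p, g j := by
    intro q _
    apply sum_congr rfl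
    intro r hr
    rw [mul_comm q p, Nat.mul_add_mod, Nat.mod_eq_of_lt (mem_range.1 hr)]
  rw [sum_congr rfl h, sum_const, card_range, nsmul_eq_mul]

/-- The sum of a product of functions of two coprime residues. -/
theorem sum_crt (g h : ℕ → ℤ) {p q : ℕ} (hp : 0 < p) (hq : 0 < q) (hc : p.Coprime q) :
    ∑ x ∈ range (p * q), g (x % p) * h (x % q) = (∑ i ∈ range p, g i) * ∑ j ∈ range q, h j := by
  rw [sum_mul_sum, ← sum_product']
  apply sum_nbij (fun x => (x % p, x % q))
  · intro x _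
    simp only [mem_product, mem_range]
    exact ⟨Nat.mod_lt _ hp, Nat.mod_lt _ hq⟩
  · intro x hx y hy hxy
    simp only [coe_range, Set.mem_Iio] at hx hy
    simp only [Prod.mk.injEq] at hxy
    have h1 : x ≡ y [MOD p * q] := (Nat.modEq_and_modEq_iff_modEq_mul hc).1 ⟨hxy.1, hxy.2⟩
    have h2 : x % (p * q) = y % (p * q) := h1
    rwa [Nat.mod_eq_of_lt hx, Nat.mod_eq_of_lt hy] at h2
  · rintro ⟨i, j⟩ hij
    simp only [coe_product, coe_range, Set.mem_prod, Set.mem_Iio] at hij
    refine ⟨Nat.chineseRemainder hc i j, ?_, ?_⟩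
    · simp only [coe_range, Set.mem_Iio]
      exact Nat.chineseRemainder_lt_mul hc i j hp.ne' hq.ne'
    · have h1 := (Nat.chineseRemainder hc i j).2
      have h2 : ((Nat.chineseRemainder hc i j : ℕ)) % p = i % p := h1.1
      have h3 : ((Nat.chineseRemainder hc i j : ℕ)) % q = j % q := h1.2
      simp only [Prod.mk.injEq]
      rw [h2, h3, Nat.mod_eq_of_lt hij.1, Nat.mod_eq_of_lt hij.2]
      exact ⟨rfl, rfl⟩
  · intro x _
    rfl

/-- **ORG.** -/
theorem t_ORG : S_ORG := by
  intro P c hP hc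
  set N : ℕ := ∏ p ∈ P, p with hN
  have h1 : ∀ x ∈ range N, (∑ p ∈ P, (p : ℤ) * c p (x % p)) ^ 2 =
      ∑ p ∈ P, ∑ q ∈ P, ((p : ℤ) * q) * (c p (x % p) * c q (x % q)) := by
    intro x _
    rw [sq, sum_mul_sum]
    apply sum_congr rfl
    intro p _
    apply sum_congr rfl
    intro q _
    ring
  rw [sum_congr rfl h1, sum_comm, mul_sum]
  apply sum_congr rfl
  intro p hp
  rw [sum_comm, sum_eq_single p]
  · rw [← mul_sum]
    have hd : p ∣ N := dvd_prod_of_mem _ hp
    obtain ⟨m, hm⟩ := hd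
    have h2 : ∑ x ∈ range N, c p (x % p) * c p (x % p) = m * ∑ j ∈ range p, c p j ^ 2 := by
      rw [hm, mul_comm p m]
      have := sum_mod (fun j => c p j ^ 2) p m
      rw [← this]
      apply sum_congr rfl
      intro x _
      ring
    rw [h2, hm]
    push_cast
    ring
  · intro q hq hqp
    rw [← mul_sum]
    have hcop : p.Coprime q := (Nat.coprime_primes (hP p hp) (hP q hq)).2 hqp.symm
    have hd : p * q ∣ N := hcop.mul_dvd_of_dvd_of_dvd (dvd_prod_of_mem _ hp) (dvd_prod_of_mem _ hq)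
    obtain ⟨m, hm⟩ := hd
    have h2 : ∑ x ∈ range N, c p (x % p) * c q (x % q) = 0 := by
      rw [hm, mul_comm (p * q) m]
      have h3 := sum_mod (fun j => c p (j % p) * c q (j % q)) (p * q) m
      simp only [Nat.mod_mul_right_mod, Nat.mod_mul_left_mod] at h3
      rw [h3, sum_crt _ _ (hP p hp).pos (hP q hq).pos hcop, hc p hp]
      ring
    rw [h2, mul_zero]
  · intro h
    exact absurd hp h

end Pool.Agent.Run7.h610.ZN
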